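import Mathlib

open MeasureTheory Set Filter Topology

namespace Pool.Agent.Results.MP_e444d1_an.Classification

/-- `m` is completely monotone on `(0,∞)`: smooth there, with `(-1)^k m^(k) ≥ 0` for all `k`. -/
def CompletelyMonotone (m : ℝ → ℝ) : Prop :=
  (∀ k : ℕ, ContDiffOn ℝ k m (Ioi 0)) ∧
    ∀ (k : ℕ) (t : ℝ), 0 < t → 0 ≤ (-1 : ℝ) ^ k * iteratedDeriv k m t

/-- `F` is a complete Bernstein function on `(0,∞)`: it has the Levy-Khintchine form whose Levy
measure is `m(t) dt` with `m` completely monotone and `min(1,t) m(t)` integrable. -/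
def IsCBF (F : ℝ → ℝ) : Prop :=
  ∃ (a b : ℝ) (m : ℝ → ℝ), 0 ≤ a ∧ 0 ≤ b ∧ CompletelyMonotone m ∧
    IntegrableOn (fun t => min 1 t * m t) (Ioi 0) ∧
    ∀ x : ℝ, 0 < x → F x = a + b * x + ∫ t in Ioi (0 : ℝ), (1 - Real.exp (-(x * t))) * m t

lemma CompletelyMonotone.nonneg {m : ℝ → ℝ} (h : CompletelyMonotone m) {t : ℝ} (ht : 0 < t) :
    0 ≤ m t := by
  simpa using h.2 0 t ht

lemma CompletelyMonotone.continuousOn {m : ℝ → ℝ} (h : CompletelyMonotone m) :
    ContinuousOn m (Ioi 0) := by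
  simpa using (h.1 0).continuousOn

lemma CompletelyMonotone.antitoneOn {m : ℝ → ℝ} (h : CompletelyMonotone m) :
    AntitoneOn m (Ioi 0) := by
  have hd : DifferentiableOn ℝ m (Ioi 0) := (h.1 1).differentiableOn (by simp)
  refine antitoneOn_of_deriv_nonpos (convex_Ioi 0) h.continuousOn ?_ ?_
  · rwa [interior_Ioi]
  · intro t ht
    rw [interior_Ioi] at ht
    have := h.2 1 t ht
    simpa using this

lemma kernel_bound {x t : ℝ} (hx : 0 ≤ x) (ht : 0 < t) :
    0 ≤ 1 - Real.exp (-(x * t)) ∧ 1 - Real.exp (-(x * t)) ≤ (x + 1) * min 1 t := by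
  have h1 : Real.exp (-(x * t)) ≤ 1 := by
    rw [Real.exp_le_one_iff]; nlinarith [mul_nonneg hx ht.le]
  have h2 : 0 < Real.exp (-(x * t)) := Real.exp_pos _
  have h3 : -(x * t) + 1 ≤ Real.exp (-(x * t)) := Real.add_one_le_exp _
  refine ⟨by linarith, ?_⟩
  rcases le_total 1 t with h | h
  · rw [min_eq_left h]; nlinarith
  · rw [min_eq_right h]; nlinarith

lemma kernel_integrable {m : ℝ → ℝ} (h : CompletelyMonotone m)
    (hi : IntegrableOn (fun t => min 1 t * m t) (Ioi 0)) {x : ℝ} (hx : 0 ≤ x) :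
    IntegrableOn (fun t => (1 - Real.exp (-(x * t))) * m t) (Ioi 0) := by
  have hc : ContinuousOn (fun t => (1 - Real.exp (-(x * t))) * m t) (Ioi 0) := by
    refine ContinuousOn.mul ?_ h.continuousOn
    fun_prop
  refine Integrable.mono' (hi.const_mul (x + 1)) (hc.aestronglyMeasurable measurableSet_Ioi) ?_
  refine (ae_restrict_iff' measurableSet_Ioi).2 (Eventually.of_forall fun t ht => ?_)
  have hb := kernel_bound hx (t := t) ht
  have hm := h.nonneg (t := t) ht
  rw [Real.norm_eq_abs, abs_of_nonneg (mul_nonneg hb.1 hm), ← mul_assoc]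
  exact mul_le_mul_of_nonneg_right hb.2 hm

/-- Lower bound for the increments of the integral part. -/
lemma increment_lower {m : ℝ → ℝ} (h : CompletelyMonotone m)
    (hi : IntegrableOn (fun t => min 1 t * m t) (Ioi 0)) {s : ℝ} (hs : 0 < s) {x : ℝ}
    (hx : 0 ≤ x) :
    s / 2 * (Real.exp (-(x * s)) * (1 - Real.exp (-(s / 2))) * m s) ≤
      (∫ t in Ioi (0 : ℝ), (1 - Real.exp (-((x + 1) * t))) * m t) -
        ∫ t in Ioi (0 : ℝ), (1 - Real.exp (-(x * t))) * m t := by
  have i1 := kernel_integrable h hi (x := x + 1) (by linarith)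
  have i0 := kernel_integrable h hi hx
  rw [← integral_sub i1 i0]
  have hsub : Ioc (s / 2) s ⊆ Ioi (0 : ℝ) := fun t ht => lt_trans (by linarith) ht.1
  have key : ∀ t : ℝ, (1 - Real.exp (-((x + 1) * t))) * m t - (1 - Real.exp (-(x * t))) * m t
      = Real.exp (-(x * t)) * (1 - Real.exp (-t)) * m t := by
    intro t
    have : Real.exp (-((x + 1) * t)) = Real.exp (-(x * t)) * Real.exp (-t) := by
      rw [← Real.exp_add]; congr 1; ring
    rw [this]; ring
  have idiff : IntegrableOn (fun t => (1 - Real.exp (-((x + 1) * t))) * m t -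
      (1 - Real.exp (-(x * t))) * m t) (Ioi 0) := i1.sub i0
  have step1 : ∫ t in Ioc (s / 2) s, ((1 - Real.exp (-((x + 1) * t))) * m t -
      (1 - Real.exp (-(x * t))) * m t) ≤ ∫ t in Ioi (0 : ℝ), ((1 - Real.exp (-((x + 1) * t))) * m t -
      (1 - Real.exp (-(x * t))) * m t) := by
    refine setIntegral_mono_set idiff ?_ hsub.eventuallyLE
    refine (ae_restrict_iff' measurableSet_Ioi).2 (Eventually.of_forall fun t ht => ?_)
    have ht' : 0 < t := ht
    show (0 : ℝ) ≤ _
    simp only []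
    rw [key]
    have : Real.exp (-t) ≤ 1 := by rw [Real.exp_le_one_iff]; linarith
    exact mul_nonneg (mul_nonneg (Real.exp_pos _).le (by linarith)) (h.nonneg ht')
  refine le_trans ?_ step1
  have hvol : (volume : Measure ℝ).real (Ioc (s / 2) s) = s / 2 := by
    rw [Real.volume_real_Ioc, max_eq_left (by linarith)]; ring
  have := setIntegral_ge_of_const_le_real (μ := volume) (s := Ioc (s / 2) s)
    (f := fun t => (1 - Real.exp (-((x + 1) * t))) * m t - (1 - Real.exp (-(x * t))) * m t)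
    (c := Real.exp (-(x * s)) * (1 - Real.exp (-(s / 2))) * m s) measurableSet_Ioc
    (by simp) ?_ (idiff.mono_set hsub)
  · rw [hvol] at this
    linarith
  · intro t ht
    have ht0 : 0 < t := hsub ht
    rw [key]
    have e1 : Real.exp (-(x * s)) ≤ Real.exp (-(x * t)) := by
      apply Real.exp_le_exp.2; nlinarith [ht.2]
    have e2 : Real.exp (-t) ≤ Real.exp (-(s / 2)) := by
      apply Real.exp_le_exp.2; linarith [ht.1]
    have e3 : Real.exp (-(s / 2)) ≤ 1 := by rw [Real.exp_le_one_iff]; linarith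
    have e4 : m s ≤ m t := h.antitoneOn ht0 hs ht.2
    have e5 : 0 ≤ m s := h.nonneg hs
    have e6 : 0 ≤ Real.exp (-(x * s)) := (Real.exp_pos _).le
    apply mul_le_mul _ e4 e5 (mul_nonneg (Real.exp_pos _).le (by linarith))
    exact mul_le_mul e1 (by linarith) (by linarith) (Real.exp_pos _).le

lemma seq_bound {p N D : ℝ} (hp : 1 < p) (hN : -1 < N) (hN' : N < 1) (hD : -1 < D) (hD' : D < 1)
    {n : ℕ} (hn : 1 ≤ n) :
    |(p ^ n + N) / (p ^ n + D) - 1| ≤ 2 * p / (p - 1) / p ^ n := by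
  have hpn : p ≤ p ^ n := le_self_pow₀ hp.le (by omega)
  have hpos : 0 < p ^ n + D := by linarith
  have hp0 : 0 < p ^ n := by linarith
  have hp1 : 0 < p - 1 := by linarith
  have e : (p ^ n + N) / (p ^ n + D) - 1 = (N - D) / (p ^ n + D) := by
    field_simp; ring
  rw [e, abs_div, abs_of_pos hpos, div_div, div_le_div_iff₀ hpos (mul_pos hp1 hp0)]
  have h2 : |N - D| ≤ 2 := by rw [abs_le]; constructor <;> linarith
  have h3 : (p - 1) * p ^ n ≤ p * (p ^ n + D) := by nlinarith
  calc |N - D| * ((p - 1) * p ^ n) ≤ 2 * ((p - 1) * p ^ n) :=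
        mul_le_mul_of_nonneg_right h2 (mul_pos hp1 hp0).le
    _ ≤ 2 * p * (p ^ n + D) := by linarith

lemma incr_bound {p N D : ℝ} (hp : 1 < p) (hN : -1 < N) (hN' : N < 1) (hD : -1 < D) (hD' : D < 1)
    {n : ℕ} (hn : 1 ≤ n) :
    (p ^ (n + 1) + N) / (p ^ (n + 1) + D) - (p ^ n + N) / (p ^ n + D) ≤
      4 * p / (p - 1) / p ^ n := by
  have h1 := seq_bound hp hN hN' hD hD' hn
  have h2 := seq_bound hp hN hN' hD hD' (n := n + 1) (by omega)
  have hp0 : 0 < p ^ n := by positivity
  have hp1 : 0 < p - 1 := by linarith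
  have h3 : 2 * p / (p - 1) / p ^ (n + 1) ≤ 2 * p / (p - 1) / p ^ n := by
    apply div_le_div_of_nonneg_left (by positivity) hp0
    rw [pow_succ]; nlinarith
  have h4 : 4 * p / (p - 1) / p ^ n = 2 * p / (p - 1) / p ^ n + 2 * p / (p - 1) / p ^ n := by ring
  rw [abs_le] at h1 h2
  linarith [h1.1, h2.2]

/-- A nonnegative `κ` below `C (r/p)^n` for all `n ≥ 1`, with `0 < r < p`, vanishes. -/
lemma vanish {κ C r p : ℝ} (hr : 0 < r) (hrp : r < p)
    (h : ∀ n : ℕ, 1 ≤ n → κ / r ^ n ≤ C / p ^ n) : κ ≤ 0 := by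
  have hp : 0 < p := lt_trans hr hrp
  have hlim : Tendsto (fun n : ℕ => C * (r / p) ^ n) atTop (𝓝 (C * 0)) :=
    (tendsto_pow_atTop_nhds_zero_of_lt_one (by positivity) ((div_lt_one hp).2 hrp)).const_mul C
  rw [mul_zero] at hlim
  refine ge_of_tendsto hlim (eventually_atTop.2 ⟨1, fun n hn => ?_⟩)
  have := h n hn
  have hrn : 0 < r ^ n := by positivity
  rw [div_le_iff₀ hrn] at this
  rw [div_pow]
  calc κ ≤ C / p ^ n * r ^ n := this
    _ = C * (r ^ n / p ^ n) := by ring

theorem result (p N D : ℝ) (hp : 1 < p) (hN : -1 < N) (hN' : N < 1) (hD : -1 < D) (hD' : D < 1) :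
    (∃ F : ℝ → ℝ, IsCBF F ∧ Tendsto F (𝓝[>] 0) (𝓝 ((p ^ 0 + N) / (p ^ 0 + D))) ∧
      ∀ n : ℕ, 1 ≤ n → F n = (p ^ n + N) / (p ^ n + D)) ↔ N = D := by
  constructor
  · rintro ⟨F, ⟨a, b, m, -, hb, hm, hi, hF⟩, -, hint⟩
    have hinc : ∀ s : ℝ, 0 < s → ∀ n : ℕ, 1 ≤ n →
        b + s / 2 * (Real.exp (-(n * s)) * (1 - Real.exp (-(s / 2))) * m s) ≤
          4 * p / (p - 1) / p ^ n := by
      intro s hs n hn
      have h1 := increment_lower hm hi hs (x := (n : ℝ)) (Nat.cast_nonneg n)
      have h2 := incr_bound hp hN hN' hD hD' hn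
      have hn0 : (0 : ℝ) < n := by exact_mod_cast hn
      have h3 := hF n hn0
      have h4 := hF (n + 1) (by linarith)
      have h5 := hint n hn
      have h6 := hint (n + 1) (by omega)
      push_cast at h6
      linarith
    have hterm : ∀ s : ℝ, 0 < s → ∀ n : ℕ,
        0 ≤ s / 2 * (Real.exp (-(n * s)) * (1 - Real.exp (-(s / 2))) * m s) := by
      intro s hs n
      have e3 : Real.exp (-(s / 2)) ≤ 1 := by rw [Real.exp_le_one_iff]; linarith
      exact mul_nonneg (by linarith)
        (mul_nonneg (mul_nonneg (Real.exp_pos _).le (by linarith)) (hm.nonneg hs))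
    have hb0 : b = 0 := by
      refine le_antisymm (vanish (C := 4 * p / (p - 1)) (r := 1) one_pos hp fun n hn => ?_) hb
      have h1 := hinc 1 one_pos n hn
      have h2 := hterm 1 one_pos n
      simp only [one_pow, div_one]
      linarith
    have hlog : 0 < Real.log p := Real.log_pos hp
    have hsmall : ∀ s : ℝ, 0 < s → s < Real.log p → m s = 0 := by
      intro s hs hsl
      have hes : Real.exp s < p := by
        have := Real.exp_lt_exp.2 hsl
        rwa [Real.exp_log (by linarith)] at this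
      have e3 : Real.exp (-(s / 2)) < 1 := by rw [Real.exp_lt_one_iff]; linarith
      have hk : s / 2 * ((1 - Real.exp (-(s / 2))) * m s) ≤ 0 := by
        refine vanish (C := 4 * p / (p - 1)) (r := Real.exp s) (Real.exp_pos s) hes fun n hn => ?_
        have h1 := hinc s hs n hn
        have h2 : Real.exp (-(n * s)) = (Real.exp s ^ n)⁻¹ := by
          rw [Real.exp_neg, Real.exp_nat_mul]
        rw [h2, hb0] at h1
        calc s / 2 * ((1 - Real.exp (-(s / 2))) * m s) / Real.exp s ^ n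
            = 0 + s / 2 * ((Real.exp s ^ n)⁻¹ * (1 - Real.exp (-(s / 2))) * m s) := by ring
          _ ≤ _ := h1
      have hms := hm.nonneg hs
      by_contra hne
      have : 0 < m s := lt_of_le_of_ne hms (Ne.symm hne)
      have : 0 < s / 2 * ((1 - Real.exp (-(s / 2))) * m s) :=
        mul_pos (by linarith) (mul_pos (by linarith) this)
      linarith
    have hzero : ∀ t : ℝ, 0 < t → m t = 0 := by
      intro t ht
      have hs : 0 < min t (Real.log p / 2) := lt_min ht (by linarith)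
      have h1 := hsmall _ hs (lt_of_le_of_lt (min_le_right _ _) (by linarith))
      have h2 : m t ≤ m (min t (Real.log p / 2)) := hm.antitoneOn hs ht (min_le_left _ _)
      exact le_antisymm (by linarith) (hm.nonneg ht)
    have hconst : ∀ x : ℝ, 0 < x → F x = a := by
      intro x hx
      rw [hF x hx, hb0, setIntegral_eq_zero_of_forall_eq_zero]
      · ring
      · intro t ht
        rw [hzero t ht, mul_zero]
    have h1 := hint 1 le_rfl
    have h2 := hint 2 (by norm_num)
    rw [hconst _ (by norm_num)] at h1 h2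
    have hp1 : 0 < p ^ 1 + D := by rw [pow_one]; linarith
    have hp2 : 0 < p ^ 2 + D := by nlinarith
    have h3 : (p ^ 1 + N) * (p ^ 2 + D) = (p ^ 2 + N) * (p ^ 1 + D) := by
      rw [← div_eq_div_iff hp1.ne' hp2.ne', ← h1, ← h2]
    have h4 : (N - D) * (p ^ 2 - p) = 0 := by linear_combination h3
    rcases mul_eq_zero.1 h4 with h | h
    · linarith
    · nlinarith
  · rintro rfl
    refine ⟨fun _ => 1, ⟨1, 0, fun _ => 0, zero_le_one, le_rfl, ⟨fun k => contDiffOn_const, ?_⟩,
      by simp, by simp⟩, ?_, ?_⟩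
    · intro k t _
      simp
    · have : (p ^ 0 + N) / (p ^ 0 + N) = 1 := div_self (by rw [pow_zero]; linarith)
      rw [this]
      exact tendsto_const_nhds
    · intro n hn
      have hpn : p ≤ p ^ n := le_self_pow₀ hp.le (by omega)
      exact (div_self (by linarith)).symm

end Pool.Agent.Results.MP_e444d1_an.Classification
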